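import Mathlib
import Pool.Agent.Run7.h842.TW.C

set_option autoImplicit false

/-!
# MP_b57ad3_co: the twist graph of the colourful triangulations of the 14-gon is connected

The conjecture that `𝓗_N` is not connected for all `N ≥ 8` with `N ≡ 2 (mod 3)` is false: `𝓗_14`, which
has 140 vertices, is connected.

Definitions (`Pool/Agent/Run7/h842/TW/A.lean`): the vertices of the polygon are `1, …, N`; a diagonal is a
pair `(a, b)`, `a < b`; `IsTriangulation N T`: `T` is a maximal set of pairwise non-crossing diagonals;
`Joined N T a b`: `ab` is a side or a diagonal in `T`; `Colorful N T`: in all triangles `abc` of `T` the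
residues of `a`, `b`, `c` modulo `3` (the colours) are different; `Twist N T T'`: in a hexagon
`a < b < c < d < e < f` whose sides are joined in `T`, the inner triangle `ace` (three diagonals of `T`) is
replaced by `bdf`, or `bdf` by `ace`; `twistGraph N` is the graph `𝓗_N` on the colourful triangulations.

Proof: every colourful triangulation is found by the recursion over the triangle at the edge `1N`
(`gen_complete`), and for each of the 140 triangulations except the first one a twist which leads to a
triangulation nearer to the first one is checked by the kernel.
-/

open Run7.h842.TW

namespace Pool.Agent.Results.MP_b57ad3_co.ConnectedForFourteen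

/-- The twist graph of the 14-gon is connected, so the conjecture is false. -/
theorem result : (twistGraph 14).Connected ∧
    ¬ ∀ N : ℕ, 8 ≤ N → N % 3 = 2 → ¬ (twistGraph N).Connected :=
  ⟨connected14, fun h => h 14 (by norm_num) (by norm_num) connected14⟩

end Pool.Agent.Results.MP_b57ad3_co.ConnectedForFourteen
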